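import Pool.Agent.W586.GZ.Stm

/-!
# GZ-PARX: parameters exist
-/

set_option autoImplicit false

namespace Pool.Agent.W395.GZ

open Pool.Agent.W586.GZ

/-- the weights -/
def mm (j : ℕ) : ℕ := 2 ^ (3 ^ j)

/-- the sizes -/
def nn : ℕ → ℕ
  | 0 => 1
  | j + 1 => mm (j + 1) ^ 3 * (nn j + 1) ^ (3 * mm (j + 1) + 1)

theorem main : S_PARX := by
  obtain ⟨s, hs⟩ := exists_surjective_nat (List (ℕ →₀ ℚ))
  refine ⟨⟨mm, nn, fun q => s (Nat.unpair q).1, ?_, ?_, ?_, ?_, ?_⟩⟩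
  · show 2 ≤ 2 ^ (3 ^ 0)
    norm_num
  · intro j
    show 2 ^ (3 ^ (j + 1)) = (2 ^ (3 ^ j)) ^ 3
    rw [← pow_mul, pow_succ]
  · exact le_rfl
  · intro j
    exact le_rfl
  · intro L k
    obtain ⟨a, ha⟩ := hs L
    refine ⟨Nat.pair a k, Nat.right_le_pair a k, ?_⟩
    rw [Nat.unpair_pair]
    exact ha

end Pool.Agent.W395.GZ
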